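import Pool.Agent.H529.F.Asm

/-!
# Task FA of helper529's project `DHL[44,2]` (helper47): the final assembly
-/

set_option autoImplicit false

open Finset Filter

namespace Pool.Agent.H47.DHL

open Pool.Agent.H95R2.BG Pool.Agent.Y826.Z Pool.Agent.H529.C Pool.Agent.H529.D Pool.Agent.H529.F
open Pool.Agent.H95R2.BG.Cert (pk cf pkS nrm G1 G2 look)

theorem nrm_mk (n : ℕ) (f : ℕ → ℕ) : nrm n (PowerSeries.mk f) = ∑ i ∈ range n, f i := by
  unfold nrm
  refine sum_congr rfl fun i _ => ?_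
  unfold cf
  rw [PowerSeries.coeff_mk]

theorem nrm_mono {n : ℕ} {f f' : ℕ → ℕ} (h : ∀ c, f c ≤ f' c) :
    nrm n (PowerSeries.mk f) ≤ nrm n (PowerSeries.mk f') := by
  rw [nrm_mk, nrm_mk]
  exact sum_le_sum fun i _ => h i

theorem nrm_q {n : ℕ} {ph q q' : ℕ → ℕ} (h : ∀ c, q c ≤ q' c) :
    nrm n (Ps q) ≤ nrm n (Ps q') ∧ nrm n (Ps1 ph q) ≤ nrm n (Ps1 ph q') ∧
      nrm n (Ps2 ph q) ≤ nrm n (Ps2 ph q') :=
  ⟨nrm_mono h, nrm_mono fun c => Nat.mul_le_mul_right _ (h c),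
    nrm_mono fun c => Nat.mul_le_mul_right _ (h c)⟩

theorem wdif_le (TM wm bs BI GB N1 K p1 p2 n : ℕ) : wdif TM wm bs BI GB N1 K p1 p2 n ≤
    wpos TM wm bs BI GB N1 K p1 n + wneg TM wm bs BI N1 K p2 n := by
  unfold wdif
  cases Nat.ble (Nat.add (Nat.add (Nat.div n bs) p2) GB) BI with
  | false => exact Nat.sub_le _ _
  | true => exact Nat.zero_le _

theorem getD_mem {α : Type} {l : List α} {i : ℕ} (h : i < l.length) (d : α) : l.getD i d ∈ l := by
  rw [List.getD_eq_getElem _ _ h]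
  exact List.getElem_mem h

theorem pb_mono {pbl : List ℕ} {nl : ℕ} (h : ∀ i, i < nl → pbl.getD i 0 ≤ pbl.getD (i + 1) 0) :
    ∀ b, b ≤ nl → ∀ a, a ≤ b → pbl.getD a 0 ≤ pbl.getD b 0 := by
  intro b
  induction b with
  | zero =>
    intro _ a ha
    rw [Nat.le_zero.1 ha]
  | succ b ih =>
    intro hb a ha
    rcases Nat.lt_or_ge b a with h1 | h1
    · have h2 : a = b + 1 := by omega
      rw [h2]
    · exact (ih (by omega) a h1).trans (h b (by omega))

theorem asm : S_ASM := by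
  intro hG hL hC hBox hW hT hLV hCOV hX1 hX2 D N1 L bs BI GB TM wm Mm wnm cap Bo Bb Gm Hm Pm A0 A1
    A2 MA Ym Zm dd n0 v fuel g ph h0 h1 levels pbl E hN1 hNN hDm hL2 hbs hBI hg hcap hlev hpb hpb0
    hlt hln hlD hlk hMm hwn hreach hl12 hE hA0 hA1 hA2 hA01 hMA hA1b hbig hY1 hY2 hY3 hH hb hPm
    hBb hk1 hk2 hker hnorm hevk hcC hfin
  have hN1' : (0 : ℝ) < N1 := by exact_mod_cast hN1
  obtain ⟨nl, hnl⟩ : ∃ nl, nl = levels.length := ⟨_, rfl⟩
  rw [← hnl] at hpb hlt hln hlD hreach hl12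
  obtain ⟨pb, hpbd⟩ : ∃ pb : ℕ → ℕ, pb = fun i => pbl.getD i 0 := ⟨_, rfl⟩
  have hpbm : ∀ b, b ≤ nl → ∀ a, a ≤ b → pb a ≤ pb b := by
    rw [hpbd]
    exact pb_mono hpb
  obtain ⟨hw0, hw1, hw2, hw3, hw4, hw5⟩ := hW TM wm bs BI GB N1 43 (2 ^ D) L (pbl.getD nl 0) hbs
    hN1 hBI hlk hNN hlD
  have hpmx : ∀ i, i ≤ nl → pb i ≤ pbl.getD nl 0 := by
    intro i hi
    have := hpbm nl le_rfl i hi
    rw [hpbd] at this ⊢
    exact this
  -- the weights
  obtain ⟨WW, hWW⟩ : ∃ WW : ℕ → ℕ → ℝ, WW = fun i n => Wt TM wm bs BI GB N1 43 (pb i) n := ⟨_, rfl⟩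
  obtain ⟨De, hDe⟩ : ∃ De : Fin E.length → ℕ → ℝ, De = fun e n =>
    (wdif TM wm bs BI GB N1 43 (pb (E.get e).l1) (pb (E.get e).l2) n : ℝ) / 1048576 := ⟨_, rfl⟩
  have hDe0 : ∀ e n, 0 ≤ De e n := by
    intro e n
    rw [hDe]
    positivity
  have hEm : ∀ e : Fin E.length, E.get e ∈ E := fun e => List.get_mem _ _
  have hWd : ∀ p1 p2, p1 ≤ p2 → p2 ≤ pbl.getD nl 0 → ∀ n, n < 2 ^ D →
      Wt TM wm bs BI GB N1 43 p1 n - Wt TM wm bs BI GB N1 43 p2 n ≤
        (wdif TM wm bs BI GB N1 43 p1 p2 n : ℝ) / 1048576 := fun p1 p2 h1 h2 n hn =>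
    (hw4 p1 p2 h1 h2 n hn).1
  refine hG hBox hL (fun h => hC h) 43 (2 ^ D) N1 L (GB * bs) cap g ph h0 h1 (by norm_num) hN1
    (by omega) hNN hDm hL2 hg ?_ nl (fun i => sc (levels.getD i default).τ)
    (fun i => sc (levels.getD i default).s) (fun i => sc (levels.getD i default).w)
    (fun i => sc (levels.getD i default).V0) (fun i => sc (levels.getD i default).Bp)
    (fun i j => sc ((levels.getD i default).X j)) (fun i j => sc ((levels.getD i default).GG j))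
    (fun i j => sc ((levels.getD i default).LL j)) (fun i => (levels.getD i default).k)
    (fun i => (levels.getD i default).a) (fun i => (levels.getD i default).m) ?_ ?_
    (fun i => bs * pb i) ?_ ?_ ?_ ?_ GB (muT TM wm GB) (fun j => bs * (j : ℕ)) hw0 WW ?_ ?_ ?_
    E.length (fun e => (E.get e).X) (fun e => (E.get e).nf) De
    (fun e => vwq g (E.get e).A (E.get e).B (E.get e).X)
    (fun e => ((dd : ℝ) / (E.get e).nn) ^ (E.get e).nf) hDe0 ?_ ?_ ?_ ?_
  · -- cap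
    have h1 : (1000 * cap : ℝ) ≤ 665 * N1 := by exact_mod_cast hcap
    linarith
  · -- ParG
    intro i hi
    have h1 := hlev _ (getD_mem (hnl ▸ hi) default)
    exact hLV _ h1.1
  · -- radius
    intro i hi
    have h1 := (hlev _ (getD_mem (hnl ▸ hi) default)).2
    generalize levels.getD i default = d at h1 ⊢
    have h2 : (20000000 : ℝ) * ((2 ^ D + 43 : ℕ) : ℝ) ≤ (2 * (d.Bp : ℝ) + (d.GG d.m : ℝ)) * N1 := by
      exact_mod_cast h1
    rw [div_le_iff₀ hN1']
    show _ ≤ (sc d.Bp + sc (d.GG d.m) / 2) * N1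
    unfold sc
    linarith
  · -- pen is monotone
    intro i hi
    exact Nat.mul_le_mul_left _ (hpbm (i + 1) hi i (Nat.le_succ i))
  · intro i hi
    have h1 := hlt i hi
    have e1 : pb i = pbl.getD i 0 := by rw [hpbd]
    show (2 * L : ℝ) - ((bs * pb i : ℕ) : ℝ) ≤ (2 + sc (levels.getD i default).τ) * N1
    rw [e1]
    generalize levels.getD i default = d at h1 ⊢
    generalize bs * pbl.getD i 0 = P at h1 ⊢
    have h2 : (20000000 : ℝ) * (L : ℝ) ≤ (20000000 + (d.τ : ℝ)) * N1 + 10000000 * (P : ℝ) := by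
      exact_mod_cast h1
    unfold sc
    linarith
  · have e1 : pb nl = pbl.getD nl 0 := by rw [hpbd]
    show 2 * L ≤ 2 * N1 + bs * pb nl
    rw [e1]
    exact hln
  · have e1 : pb nl = pbl.getD nl 0 := by rw [hpbd]
    show 2 ^ D + 43 + bs * pb nl ≤ L + GB * bs + 1
    rw [e1]
    exact hlD
  · intro i hi n hn h1
    rw [hWW]
    exact hw1 _ (hpmx i hi) n hn h1
  · intro i hi n hn h1 h2
    rw [hWW]
    exact hw2 _ (hpmx i hi) n hn h1 h2
  · intro i hi n hn h1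
    rw [hWW]
    exact hw3 _ (hpmx i hi) n hn h1
  · intro e
    positivity
  · -- coverage
    intro i hi j hj
    obtain ⟨S, hS1, hS2⟩ := hCOV E N1 i fuel _ _ (hreach i hi j hj) (2 ^ D)
      (fun b n => Wt TM wm bs BI GB N1 43 (pb (min b nl)) n) De hDe0 (by
        intro a b hab n hn
        have h1 : min a nl ≤ min b nl := min_le_min_right nl hab
        exact (hw4 _ _ (hpbm _ (min_le_right b nl) _ h1) (hpmx _ (min_le_right b nl)) n hn).2)
      (by
        intro e n hn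
        have h1 := hl12 _ (hEm e)
        show Wt TM wm bs BI GB N1 43 (pb (min (E.get e).l1 nl)) n -
          Wt TM wm bs BI GB N1 43 (pb (min (E.get e).l2 nl)) n ≤ De e n
        rw [min_eq_left (h1.1.trans h1.2), min_eq_left h1.2, hDe]
        exact hWd _ _ (hpbm _ h1.2 _ h1.1) (hpmx _ h1.2) n hn)
    refine ⟨S, hS1, fun n hn => ?_⟩
    have h1 := hS2 n hn
    have e1 : min 0 nl = 0 := Nat.zero_min nl
    have e2 : min (i + 1) nl = i + 1 := min_eq_left hi
    simp only [e1, e2] at h1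
    rw [hWW]
    exact h1
  · -- tilts
    intro e c hc
    have h1 := hE _ (hEm e)
    exact (hT g (E.get e).A (E.get e).B (E.get e).X (E.get e).nn dd h1.1 h1.2.1 h1.2.2.1
      h1.2.2.2.1).1 43 (E.get e).nf c hc
  · -- the final inequality
    obtain ⟨Lp, hLp⟩ : ∃ Lp : (ℕ → ℕ) → (ℕ → ℕ) → ℕ, Lp = fun q w =>
      LP Bo Bb (Bo * 2 ^ D) (Bo * (2 ^ D - 1)) D ph q w
        (YY Bb D g ph h0 h1 (2 ^ D) (Bb * (2 ^ D - 1))) (BB Bb D g h1 (2 ^ D) (Bb * (2 ^ D - 1))) :=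
      ⟨_, rfl⟩
    obtain ⟨Lm, hLm⟩ : ∃ Lm : (ℕ → ℕ) → (ℕ → ℕ) → ℕ, Lm = fun q w =>
      LM Bo Bb (Bo * 2 ^ D) (Bo * (2 ^ D - 1)) D ph q w
        (YY Bb D g ph h0 h1 (2 ^ D) (Bb * (2 ^ D - 1))) (BB Bb D g h1 (2 ^ D) (Bb * (2 ^ D - 1))) :=
      ⟨_, rfl⟩
    obtain ⟨gq, hgq⟩ : ∃ gq : ℕ → ℕ, gq = fun i => g i * g i := ⟨_, rfl⟩
    have hgq1 : ∀ c, gq c ≤ g c * g c + 1 := by
      intro c
      rw [hgq]
      exact Nat.le_succ _
    have x1 : ∀ q w : ℕ → ℕ, (∀ c, q c ≤ g c * g c + 1) → (∀ n, n < 2 ^ D → w n ≤ 1048576 + wnm) →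
        ∑ n ∈ range (2 ^ D), (w n : ℝ) * XQ (2 ^ D) g ph h0 h1 43 q n =
          (Lp q w : ℝ) - (Lm q w : ℝ) := by
      intro q w hq hw
      rw [hLp, hLm]
      exact hX1 Bo Bb D Gm Hm Pm A0 A1 A2 MA Ym Zm g ph h0 h1 (fun n hn => (hb n hn).1)
        (fun n hn => (hb n hn).2.1) (fun n hn => (hb n hn).2.2.1) (fun n hn => (hb n hn).2.2.2)
        hPm hBb hk1 hk2 hA01 hMA hA1b hbig q w ((nrm_q (ph := ph) hq).1.trans hA0)
        ((nrm_q (ph := ph) hq).2.1.trans hA1) ((nrm_q (ph := ph) hq).2.2.trans hA2) (fun n hn =>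
          ⟨(Nat.mul_le_mul_right _ (hw n hn)).trans hY1,
            (Nat.mul_le_mul_right _ (hw n hn)).trans hY2,
            (Nat.mul_le_mul_right _ (hw n hn)).trans hY3⟩)
    have x2 := hX2 Bo D Hm A0 A1 A2 MA g ph h0 h1 (fun n hn => (hb n hn).2.2.1)
      (fun n hn => (hb n hn).2.2.2) hH
      ((nrm_q (ph := ph) (fun c => Nat.le_succ (g c * g c))).1.trans hA0)
      ((nrm_q (ph := ph) (fun c => Nat.le_succ (g c * g c))).2.1.trans hA1)
      ((nrm_q (ph := ph) (fun c => Nat.le_succ (g c * g c))).2.2.trans hA2)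
      hA01 hMA hA1b hbig
    have wp : ∀ p, p ≤ pbl.getD nl 0 → ∀ n, n < 2 ^ D →
        wpos TM wm bs BI GB N1 43 p n ≤ 1048576 := fun p hp n hn => (hw5 Mm hMm p hp n hn).1
    have wn : ∀ p, p ≤ pbl.getD nl 0 → ∀ n, n < 2 ^ D →
        wneg TM wm bs BI N1 43 p n ≤ wnm := fun p hp n hn =>
      (hw5 Mm hMm p hp n hn).2.trans hwn
    have hnorm' : (NP Bo (Bo * 2 ^ D) D ph (fun i => g i * g i) h0 h1 (Bo * (2 ^ D - 1)) : ℝ) ≤
        (NM Bo (Bo * 2 ^ D) D ph (fun i => g i * g i) h0 h1 (Bo * (2 ^ D - 1)) : ℝ) + n0 := by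
      exact_mod_cast hnorm
    have hker' : Lm gq (wpos TM wm bs BI GB N1 43 0) + Lp gq (wneg TM wm bs BI N1 43 0) + v ≤
        Lp gq (wpos TM wm bs BI GB N1 43 0) + Lm gq (wneg TM wm bs BI N1 43 0) := by
      rw [hLp, hLm, hgq]
      exact hker
    have hker2 : (Lm gq (wpos TM wm bs BI GB N1 43 0) : ℝ) + Lp gq (wneg TM wm bs BI N1 43 0) + v ≤
        Lp gq (wpos TM wm bs BI GB N1 43 0) + Lm gq (wneg TM wm bs BI N1 43 0) := by
      exact_mod_cast hker'
    have hpb00 : pb 0 = 0 := by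
      rw [hpbd]
      exact hpb0
    have m1 : (v : ℝ) / 1048576 ≤
        ∑ n ∈ range (2 ^ D), WW 0 n * XQ (2 ^ D) g ph h0 h1 43 gq n := by
      have e1 := x1 gq (wpos TM wm bs BI GB N1 43 0) hgq1 (fun n hn =>
        (wp 0 (Nat.zero_le _) n hn).trans (Nat.le_add_right _ _))
      have e2 := x1 gq (wneg TM wm bs BI N1 43 0) hgq1 (fun n hn =>
        (wn 0 (Nat.zero_le _) n hn).trans (Nat.le_add_left _ _))
      have e3 : ∑ n ∈ range (2 ^ D), WW 0 n * XQ (2 ^ D) g ph h0 h1 43 gq n =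
          (∑ n ∈ range (2 ^ D), (wpos TM wm bs BI GB N1 43 0 n : ℝ) *
            XQ (2 ^ D) g ph h0 h1 43 gq n -
          ∑ n ∈ range (2 ^ D), (wneg TM wm bs BI N1 43 0 n : ℝ) *
            XQ (2 ^ D) g ph h0 h1 43 gq n) / 1048576 := by
        rw [← sum_sub_distrib, sum_div]
        refine sum_congr rfl fun n _ => ?_
        rw [hWW]
        simp only [hpb00]
        unfold Wt
        ring
      rw [e3, e1, e2]
      rw [div_le_div_iff_of_pos_right (by norm_num)]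
      linarith
    have m2 : ∀ e : Fin E.length, ((dd : ℝ) / (E.get e).nn) ^ (E.get e).nf *
        ∑ n ∈ range (2 ^ D), De e n *
          XQ (2 ^ D) g ph h0 h1 43 (vwq g (E.get e).A (E.get e).B (E.get e).X) n ≤
        ((E.get e).C : ℝ) / 1048576 := by
      intro e
      have k1 := hE _ (hEm e)
      have k2 := hl12 _ (hEm e)
      have k3 := hevk _ (hEm e)
      have k4 := hcC _ (hEm e)
      have hq := (hT g (E.get e).A (E.get e).B (E.get e).X (E.get e).nn dd k1.1 k1.2.1 k1.2.2.1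
        k1.2.2.2.1).2 k1.2.2.2.2.1 k1.2.2.2.2.2
      have hpl : ∀ l, pb l = pbl.getD l 0 := fun l => by rw [hpbd]
      have e1 := x1 (vwq g (E.get e).A (E.get e).B (E.get e).X)
        (wdif TM wm bs BI GB N1 43 (pb (E.get e).l1) (pb (E.get e).l2)) hq (fun n hn =>
        (wdif_le _ _ _ _ _ _ _ _ _ _).trans (Nat.add_le_add
          (wp _ (hpmx _ (k2.1.trans k2.2)) n hn) (wn _ (hpmx _ k2.2) n hn)))
      have e2 : ∑ n ∈ range (2 ^ D), De e n *
          XQ (2 ^ D) g ph h0 h1 43 (vwq g (E.get e).A (E.get e).B (E.get e).X) n =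
          (∑ n ∈ range (2 ^ D),
            (wdif TM wm bs BI GB N1 43 (pb (E.get e).l1) (pb (E.get e).l2) n : ℝ) *
            XQ (2 ^ D) g ph h0 h1 43 (vwq g (E.get e).A (E.get e).B (E.get e).X) n) /
              1048576 := by
        rw [sum_div]
        refine sum_congr rfl fun n _ => ?_
        rw [hDe]
        ring
      have h3' : Lp (vwq g (E.get e).A (E.get e).B (E.get e).X)
          (wdif TM wm bs BI GB N1 43 (pb (E.get e).l1) (pb (E.get e).l2)) ≤
          Lm (vwq g (E.get e).A (E.get e).B (E.get e).X)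
          (wdif TM wm bs BI GB N1 43 (pb (E.get e).l1) (pb (E.get e).l2)) + (E.get e).c := by
        rw [hLp, hLm, hpl, hpl]
        exact k3
      have h3'' : (Lp (vwq g (E.get e).A (E.get e).B (E.get e).X)
          (wdif TM wm bs BI GB N1 43 (pb (E.get e).l1) (pb (E.get e).l2)) : ℝ) ≤
          (Lm (vwq g (E.get e).A (E.get e).B (E.get e).X)
          (wdif TM wm bs BI GB N1 43 (pb (E.get e).l1) (pb (E.get e).l2)) : ℝ) +
            (E.get e).c := by
        exact_mod_cast h3'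
      rw [e2, e1]
      have hnn : (0 : ℝ) < (E.get e).nn := by exact_mod_cast k1.1
      have h4' : ((E.get e).c : ℝ) * (dd : ℝ) ^ (E.get e).nf ≤
          (E.get e).C * ((E.get e).nn : ℝ) ^ (E.get e).nf := by exact_mod_cast k4
      calc ((dd : ℝ) / (E.get e).nn) ^ (E.get e).nf *
            (((Lp (vwq g (E.get e).A (E.get e).B (E.get e).X)
              (wdif TM wm bs BI GB N1 43 (pb (E.get e).l1) (pb (E.get e).l2)) : ℝ) -
            (Lm (vwq g (E.get e).A (E.get e).B (E.get e).X)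
              (wdif TM wm bs BI GB N1 43 (pb (E.get e).l1) (pb (E.get e).l2)) : ℝ)) / 1048576)
          ≤ ((dd : ℝ) / (E.get e).nn) ^ (E.get e).nf * (((E.get e).c : ℝ) / 1048576) := by
            refine mul_le_mul_of_nonneg_left ?_ (by positivity)
            refine div_le_div_of_nonneg_right ?_ (by norm_num)
            linarith
        _ = (((E.get e).c : ℝ) * (dd : ℝ) ^ (E.get e).nf) /
              ((E.get e).nn : ℝ) ^ (E.get e).nf / 1048576 := by
            rw [div_pow]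
            ring
        _ ≤ ((E.get e).C : ℝ) / 1048576 := by
            refine div_le_div_of_nonneg_right ?_ (by norm_num)
            rw [div_le_iff₀ (by positivity)]
            exact h4'
    have hsum : ∑ e : Fin E.length, ((E.get e).C : ℝ) = (((E.map Ed.C).sum : ℕ) : ℝ) := by
      have h1 := Fin.sum_univ_fun_getElem E Ed.C
      rw [← h1]
      push_cast
      rfl
    have m3 : ∑ e : Fin E.length, ((dd : ℝ) / (E.get e).nn) ^ (E.get e).nf *
        ∑ n ∈ range (2 ^ D), De e n *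
          XQ (2 ^ D) g ph h0 h1 43 (vwq g (E.get e).A (E.get e).B (E.get e).X) n ≤
        (((E.map Ed.C).sum : ℕ) : ℝ) / 1048576 := by
      refine (sum_le_sum fun e _ => m2 e).trans ?_
      rw [← sum_div, hsum]
    have hfin' : 4 * (N1 : ℝ) * (1048576 * n0) + 44 * (((E.map Ed.C).sum : ℕ) : ℝ) < 44 * v := by
      exact_mod_cast hfin
    have h44 : ((43 : ℕ) : ℝ) + 1 = 44 := by norm_num
    rw [hgq] at m1
    rw [h44]
    refine lt_of_le_of_lt (b := 4 * (N1 : ℝ) * n0) ?_ ?_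
    · refine mul_le_mul_of_nonneg_left ?_ (by positivity)
      refine le_trans (le_of_eq x2) ?_
      linarith
    · refine lt_of_lt_of_le (b := 44 * ((v : ℝ) / 1048576 -
        (((E.map Ed.C).sum : ℕ) : ℝ) / 1048576)) ?_ ?_
      · linarith
      · refine mul_le_mul_of_nonneg_left ?_ (by norm_num)
        exact sub_le_sub m1 m3

end Pool.Agent.H47.DHL
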